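import Pool.Agent.Lib.MP_b5021c_nt.IfaceL2

/-!
# Board b5, row NVE: class `V(N)` over the Eisenstein integers
-/

namespace Pool.Agent.B5.H88

open scoped LaurentPolynomial
open Pool.Agent.MP_b5021c_nt (Eis)

theorem nve : NVES := by
  intro N Q h
  obtain ⟨h1, n, q, hQ, hN, hz⟩ := h
  rcases h1.eq_or_lt with h2 | h2
  · exact Or.inl h2.symm
  · right
    rw [← hN] at h2 ⊢
    exact Pool.Agent.MP_b5021c_nt.Eis.sqrt3_le_of_one_lt h2

end Pool.Agent.B5.H88
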