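import Pool.Agent.Lib.MP_b5021c_nt.IfaceD

/-!
# Board b5, row D2G: Gordan's alternative in a lattice
-/

namespace Pool.Agent.B5.H88

open scoped LaurentPolynomial

/-- Functionals vanishing on `K` detect the elements which are not torsion modulo `K`. -/
theorem sep (L : Type) [AddCommGroup L] [Module.Free ℤ L] [Module.Finite ℤ L]
    (K : Submodule ℤ L) (s : L) :
    (∃ mu : L →+ ℤ, (∀ k ∈ K, mu k = 0) ∧ 0 < mu s) ∨ ∃ n : ℕ, 0 < n ∧ n • s ∈ K := by
  classical
  by_cases h : K.mkQ s ∈ Submodule.torsion ℤ (L ⧸ K)
  · right
    rw [Submodule.mem_torsion_iff] at h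
    obtain ⟨⟨a, ha⟩, h⟩ := h
    have ha0 : a ≠ 0 := nonZeroDivisors.ne_zero ha
    have h1 : a • s ∈ K := by
      have h2 : a • K.mkQ s = 0 := h
      rw [← map_smul, Submodule.mkQ_apply, Submodule.Quotient.mk_eq_zero] at h2
      exact h2
    refine ⟨a.natAbs, Int.natAbs_pos.mpr ha0, ?_⟩
    rw [← natCast_zsmul, Int.natCast_natAbs]
    rcases abs_choice a with h3 | h3
    · rw [h3]; exact h1
    · rw [h3, neg_smul]; exact K.neg_mem h1
  · left
    let T := Submodule.torsion ℤ (L ⧸ K)
    have hfree : Module.Free ℤ ((L ⧸ K) ⧸ T) := inferInstance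
    have h1 : T.mkQ (K.mkQ s) ≠ 0 := by
      rw [Submodule.mkQ_apply, Ne, Submodule.Quotient.mk_eq_zero]
      exact h
    have h2 : ∃ f : Module.Dual ℤ ((L ⧸ K) ⧸ T), f (T.mkQ (K.mkQ s)) ≠ 0 := by
      by_contra hc
      push Not at hc
      exact h1 ((Module.forall_dual_apply_eq_zero_iff ℤ _).mp hc)
    obtain ⟨f, hf⟩ := h2
    let g : L →ₗ[ℤ] ℤ := f.comp (T.mkQ.comp K.mkQ)
    have hgK : ∀ k ∈ K, g k = 0 := by
      intro k hk
      change f (T.mkQ (K.mkQ k)) = 0
      have : K.mkQ k = 0 := by
        rw [Submodule.mkQ_apply, Submodule.Quotient.mk_eq_zero]; exact hk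
      rw [this, map_zero, map_zero]
    rcases lt_or_gt_of_ne hf with h3 | h3
    · refine ⟨(-g).toAddMonoidHom, fun k hk => ?_, ?_⟩
      · change -g k = 0
        rw [hgK k hk, neg_zero]
      · change 0 < -g s
        have : g s < 0 := h3
        linarith
    · exact ⟨g.toAddMonoidHom, fun k hk => hgK k hk, h3⟩

theorem d2g : D2S := by
  classical
  intro L _ _ _ S
  induction S using Finset.induction_on with
  | empty =>
    intro K
    exact Or.inl ⟨0, fun _ _ => rfl, fun a ha => absurd ha (Finset.notMem_empty a)⟩
  | @insert s S hs ih =>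
    intro K
    rcases ih K with ⟨lam', h1, h2⟩ | ⟨c, ⟨a, ha, hca⟩, hc⟩
    swap
    · right
      refine ⟨fun b => if b = s then 0 else c b, ⟨a, Finset.mem_insert_of_mem ha, ?_⟩, ?_⟩
      · have : a ≠ s := fun h => hs (h ▸ ha)
        simpa [this] using hca
      · rw [Finset.sum_insert hs]
        have : ∑ b ∈ S, (if b = s then 0 else c b) • b = ∑ b ∈ S, c b • b := by
          refine Finset.sum_congr rfl fun b hb => ?_
          have : b ≠ s := fun h => hs (h ▸ hb)
          simp [this]
        rw [this]
        simpa using hc
    · by_cases h3 : 0 < lam' s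
      · left
        refine ⟨lam', h1, fun a ha => ?_⟩
        rcases Finset.mem_insert.mp ha with h4 | h4
        · rw [h4]; exact h3
        · exact h2 a h4
      rcases ih (K ⊔ Submodule.span ℤ {s}) with ⟨lam0, h4, h5⟩ | ⟨c, ⟨a, ha, hca⟩, hc⟩
      · have h0s : lam0 s = 0 :=
          h4 s (Submodule.mem_sup_right (Submodule.mem_span_singleton_self s))
        have h0K : ∀ k ∈ K, lam0 k = 0 := fun k hk => h4 k (Submodule.mem_sup_left hk)
        rcases sep L K s with ⟨mu, hmK, hms⟩ | ⟨n, hn, hns⟩
        · left
          -- a large multiple of `lam0`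
          obtain ⟨N, hN⟩ : ∃ N : ℤ, ∀ a ∈ S, |mu a| < N := by
            refine ⟨∑ a ∈ S, |mu a| + 1, fun a ha => ?_⟩
            have := Finset.single_le_sum (f := fun a => |mu a|) (fun b _ => abs_nonneg (mu b)) ha
            linarith
          refine ⟨N • lam0 + mu, fun k hk => ?_, fun a ha => ?_⟩
          · rw [AddMonoidHom.add_apply, AddMonoidHom.smul_apply, h0K k hk, hmK k hk]; simp
          · rw [AddMonoidHom.add_apply, AddMonoidHom.smul_apply, smul_eq_mul]
            rcases Finset.mem_insert.mp ha with h6 | h6
            · rw [h6, h0s, mul_zero, zero_add]; exact hms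
            · have h7 := hN a h6
              have h8 := h5 a h6
              have h9 := neg_abs_le (mu a)
              have h10 : 0 ≤ |mu a| := abs_nonneg _
              nlinarith
        · right
          refine ⟨fun b => if b = s then n else 0, ⟨s, Finset.mem_insert_self s S, ?_⟩, ?_⟩
          · simpa using hn.ne'
          · rw [Finset.sum_insert hs]
            have : ∑ b ∈ S, (if b = s then n else 0) • b = 0 := by
              refine Finset.sum_eq_zero fun b hb => ?_
              have : b ≠ s := fun h => hs (h ▸ hb)
              simp [this]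
            rw [this]
            simpa using hns
      · obtain ⟨k, hk, y, hy, hky⟩ := Submodule.mem_sup.mp hc
        obtain ⟨t, rfl⟩ := Submodule.mem_span_singleton.mp hy
        by_cases ht : 0 < t
        · exfalso
          apply h3
          have h6 : ∑ a ∈ S, (c a : ℤ) * lam' a = t * lam' s := by
            have h7 := congrArg lam' hky
            rw [map_add, h1 k hk, zero_add, map_zsmul, map_sum] at h7
            rw [smul_eq_mul] at h7
            rw [h7]
            refine Finset.sum_congr rfl fun b _ => ?_
            rw [map_nsmul, nsmul_eq_mul]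
          have h8 : 0 < ∑ a ∈ S, (c a : ℤ) * lam' a := by
            refine Finset.sum_pos' (fun b hb => mul_nonneg (Int.natCast_nonneg _) (h2 b hb).le)
              ⟨a, ha, mul_pos ?_ (h2 a ha)⟩
            exact_mod_cast Nat.pos_of_ne_zero hca
          rw [h6] at h8
          exact (mul_pos_iff_of_pos_left ht).mp h8
        · right
          refine ⟨fun b => if b = s then (-t).toNat else c b,
            ⟨a, Finset.mem_insert_of_mem ha, ?_⟩, ?_⟩
          · have : a ≠ s := fun h => hs (h ▸ ha)
            simpa [this] using hca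
          · rw [Finset.sum_insert hs]
            have : ∑ b ∈ S, (if b = s then (-t).toNat else c b) • b = ∑ b ∈ S, c b • b := by
              refine Finset.sum_congr rfl fun b hb => ?_
              have : b ≠ s := fun h => hs (h ▸ hb)
              simp [this]
            rw [this, ← hky]
            simp only [if_true]
            have h6 : ((-t).toNat : ℤ) = -t := Int.toNat_of_nonneg (by linarith)
            rw [← natCast_zsmul, h6, neg_smul]
            have : -(t • s) + (k + t • s) = k := by abel
            rw [this]
            exact hk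

end Pool.Agent.B5.H88
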