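import Pool.Agent.Lib.MP_b5021c_nt.IfaceS4
import Pool.Agent.Lib.MP_b5021c_nt.B.H88.LPA

/-!
# Board b5, stage 2, row U_LA2: loads of type A in class `P`, `θ ≥ 200`
-/

namespace Pool.Agent.B5.H88

open Polynomial
open Pool.Agent.MP_b5021c_nt (Eis)

/-- Type `A2`. -/
theorem la22 (hPCZ : PCZS) (hSWZ : SwzS) (hREA : Ra2S) (hA2U : AuvS) {θ : ℝ} {q f : Eis[X]}
    {s r : ℂ[X]} {T c : ℂ} (hθ : 200 ≤ θ) (hD : PDat θ q f s r T c)
    (hfu : ¬ IsUnit (f.coeff 0)) (hc : ‖c‖ ≤ 11 / 10) :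
    ∃ v : Eisˣ, ClassV 1 (toLaurent (q + C (v : Eis) * f)) ∨
      ∃ θ' : ℝ, θ' ≤ 6 / 10 * θ + 21 ∧ ClassP θ' (toLaurent (q + C (v : Eis) * f)) := by
  have hqu : IsUnit (q.coeff 0) := Eis.isUnit_iff_emb.mpr hD.q0
  have hq0 := eval_zero_s hD
  have hf0 := eval_zero_f hD
  have hs1 : ‖s.eval 0‖ = 1 := by rw [← hq0]; exact hD.q0
  have hsne : s.eval 0 ≠ 0 := hD.s0 0 (by simp)
  obtain ⟨h₀, hh₀⟩ : ∃ h₀ : ℂ, h₀ = r.eval 0 / s.eval 0 := ⟨_, rfl⟩
  have hr0 : r.eval 0 = h₀ * s.eval 0 := by rw [hh₀]; field_simp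
  have hh₀1 : ‖h₀‖ ≤ 1 := by
    rw [hh₀, norm_div, hs1, div_one]
    exact hD.h0.trans hs1.le
  obtain ⟨nu, hnu⟩ : ∃ nu : Eis, nu = f.coeff 0 * ((hqu.unit⁻¹ : Eisˣ) : Eis) := ⟨_, rfl⟩
  have hinv : Eis.emb ((hqu.unit⁻¹ : Eisˣ) : Eis) * s.eval 0 = 1 := by
    rw [← hq0, ← map_mul]
    have h1 : ((hqu.unit⁻¹ : Eisˣ) : Eis) * q.coeff 0 = 1 := by
      have := hqu.unit.inv_mul
      simpa using this
    rw [h1, map_one]
  have hnuc : Eis.emb nu = c + h₀ := by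
    rw [hnu, map_mul, hf0, hr0]
    linear_combination (c + h₀) * hinv
  have hnun : ‖Eis.emb nu‖ = ‖Eis.emb (f.coeff 0)‖ := by
    rw [hnu, map_mul, norm_mul, Eis.norm_emb_unit (hqu.unit⁻¹).isUnit, mul_one]
  have hlow : Real.sqrt 3 ≤ ‖Eis.emb nu‖ := by
    rw [hnun]; exact Eis.sqrt3_le hD.f0 hfu
  have hup : ‖Eis.emb nu‖ ≤ 21 / 10 := by
    rw [hnuc]
    calc ‖c + h₀‖ ≤ ‖c‖ + ‖h₀‖ := norm_add_le _ _
      _ ≤ 21 / 10 := by linarith
  have h3 : ‖Eis.emb nu‖ ^ 2 = 3 ∨ ‖Eis.emb nu‖ ^ 2 = 4 := by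
    obtain ⟨n, hn⟩ := Eis.sq_nat nu
    have h4 : (3 : ℝ) ≤ ‖Eis.emb nu‖ ^ 2 := by
      have h5 : Real.sqrt 3 ^ 2 = 3 := Real.sq_sqrt (by norm_num)
      calc (3 : ℝ) = Real.sqrt 3 ^ 2 := h5.symm
        _ ≤ _ := pow_le_pow_left₀ (Real.sqrt_nonneg 3) hlow 2
    have h6 : ‖Eis.emb nu‖ ^ 2 < 5 := by
      nlinarith [norm_nonneg (Eis.emb nu)]
    rw [hn] at h4 h6 ⊢
    have h7 : 3 ≤ n := by exact_mod_cast h4
    have h8 : n < 5 := by exact_mod_cast h6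
    have h9 : n = 3 ∨ n = 4 := by omega
    rcases h9 with h9 | h9
    · left; rw [h9]; norm_num
    · right; rw [h9]; norm_num
  obtain ⟨e, he1, he2⟩ := hA2U nu h₀ h3 hh₀1 (by
    rw [hnuc, add_sub_cancel_right]; exact hc)
  refine ⟨e, ?_⟩
  obtain ⟨hen, hVc, hVne, hcard⟩ := lpa_common hPCZ hD e
  obtain ⟨V, hV⟩ : ∃ V : Eis[X], V = q + C (e : Eis) * f := ⟨_, rfl⟩
  rw [← hV] at hVc hVne hcard ⊢
  obtain ⟨ε, hε⟩ : ∃ ε : ℂ, ε = Eis.emb (e : Eis) := ⟨_, rfl⟩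
  rw [← hε] at he1 he2 hen hVc
  have hV0 : Eis.emb (V.coeff 0) = s.eval 0 * (1 + ε * Eis.emb nu) := by
    rw [hV, coeff_add, coeff_C_mul, map_add, map_mul, hq0, hf0, hr0, hnuc, hε]
    ring
  have hV1 : ‖Eis.emb (V.coeff 0)‖ = 1 := by
    rw [hV0, norm_mul, hs1, he1, one_mul]
  have hT0 : toLaurent V = LaurentPolynomial.T 0 * toLaurent V := by
    rw [LaurentPolynomial.T_zero, one_mul]
  rcases Nat.eq_zero_or_pos ((V.map Eis.emb).roots.filter (fun x => ‖x‖ < 1)).card with h1 | h1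
  · -- no zero
    left
    refine ⟨le_rfl, 0, V, hT0, hV1, ?_⟩
    intro z hz h2
    rw [Multiset.card_eq_zero] at h1
    have h3 : z ∈ (V.map Eis.emb).roots.filter (fun x => ‖x‖ < 1) := by
      rw [Multiset.mem_filter]
      exact ⟨(mem_roots hVne).mpr h2, hz⟩
    rw [h1] at h3
    exact absurd h3 (Multiset.notMem_zero z)
  · -- one zero
    right
    have h2 : ((V.map Eis.emb).roots.filter (fun x => ‖x‖ < 1)).card = 1 := by omega
    obtain ⟨b, hb⟩ := Multiset.card_eq_one.mp h2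
    have hbm : b ∈ (V.map Eis.emb).roots.filter (fun x => ‖x‖ < 1) := by
      rw [hb]; simp
    rw [Multiset.mem_filter] at hbm
    have hbroot : (V.map Eis.emb).eval b = 0 := (mem_roots hVne).mp hbm.1
    have hb0 : b ≠ 0 := by
      rintro rfl
      rw [← coeff_zero_eq_eval_zero, coeff_map] at hbroot
      rw [hbroot, norm_zero] at hV1
      exact one_ne_zero hV1.symm
    have hbpos : 0 < ‖b‖ := norm_pos_iff.mpr hb0
    have hbinv : 1 < ‖b‖⁻¹ := (one_lt_inv₀ hbpos).mpr hbm.2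
    have hsb : s.eval b ≠ 0 := hD.s0 b hbm.2.le
    refine ⟨‖b‖⁻¹, ?_, hbinv, 0, V, hT0, hV1, b, (inv_inv _).symm, hb⟩
    obtain ⟨h, hh⟩ : ∃ h : ℂ, h = r.eval b / s.eval b := ⟨_, rfl⟩
    have hrs : r.eval b = h * s.eval b := by rw [hh]; field_simp
    have hsw : ‖h - h₀‖ ≤ 7 * ‖b‖ := by
      rw [hh, hh₀]
      exact hSWZ r s hD.s0 hD.r3 b hbm.2
    have h4 : (1 - T * b) * (1 + ε * h) + ε * c = 0 := by
      have h5 : ((1 - T * b) * (1 + ε * h) + ε * c) * s.eval b = 0 := by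
        rw [hVc] at hbroot
        simp only [eval_add, eval_mul, eval_sub, eval_one, eval_C, eval_X] at hbroot
        rw [hrs] at hbroot
        linear_combination hbroot
      exact (mul_eq_zero.mp h5).resolve_right hsb
    have h9 := hREA T b⁻¹ c ε h₀ h (by rw [hD.nT]; exact hθ) (by rw [norm_inv]; exact hbinv) hen
      (by rw [← hnuc]; exact he1) he2
      (by
        rw [norm_inv, div_inv_eq_mul]
        exact hsw)
      (by
        have h6 : b⁻¹ - T = (1 - T * b) * b⁻¹ := by field_simp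
        rw [h6]
        linear_combination b⁻¹ * h4)
    rw [norm_inv, hD.nT] at h9
    exact h9

/-- Type `A1`. -/
theorem la21 (hPCZ : PCZS) {θ : ℝ} {q f : Eis[X]}
    {s r : ℂ[X]} {T c : ℂ} (hD : PDat θ q f s r T c) 
    (hfu : IsUnit (f.coeff 0)) :
    ∃ (v : Eisˣ) (N' : ℝ), N' ≤ ‖c‖ * θ + 1 ∧ ClassV N' (toLaurent (q + C (v : Eis) * f)) := by
  have hqu : IsUnit (q.coeff 0) := Eis.isUnit_iff_emb.mpr hD.q0
  have hq0 := eval_zero_s hD
  have hf0 := eval_zero_f hD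
  have hs1 : ‖s.eval 0‖ = 1 := by rw [← hq0]; exact hD.q0
  obtain ⟨v, hv⟩ : ∃ v : Eisˣ, v = -(hqu.unit * hfu.unit⁻¹) := ⟨_, rfl⟩
  have hvf : (v : Eis) * f.coeff 0 = -q.coeff 0 := by
    rw [hv, Units.val_neg, Units.val_mul, neg_mul, mul_assoc]
    have h1 : ((hfu.unit⁻¹ : Eisˣ) : Eis) * f.coeff 0 = 1 := by
      have := hfu.unit.inv_mul
      simpa using this
    rw [h1, mul_one]
    simp
  obtain ⟨hvn, hVc, hVne, hcard⟩ := lpa_common hPCZ hD v
  have h0 : (q + C (v : Eis) * f).coeff 0 = 0 := by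
    rw [coeff_add, coeff_C_mul, hvf, add_neg_cancel]
  obtain ⟨E, hE⟩ := X_dvd_iff.mpr h0
  obtain ⟨Ec, hEc⟩ : ∃ Ec : ℂ[X], Ec = E.map Eis.emb := ⟨_, rfl⟩
  have hmap : (q + C (v : Eis) * f).map Eis.emb = X * Ec := by
    rw [hE, Polynomial.map_mul, map_X, hEc]
  rw [hmap] at hVc hVne hcard
  have hEne : Ec ≠ 0 := by
    rintro h1
    rw [h1, mul_zero] at hVne
    exact hVne rfl
  have hEz : ∀ z : ℂ, ‖z‖ < 1 → Ec.eval z ≠ 0 := by
    intro z hz h1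
    rw [roots_mul hVne, roots_X, Multiset.filter_add, Multiset.card_add] at hcard
    have h2 : 0 < (Ec.roots.filter (fun x => ‖x‖ < 1)).card := by
      apply Multiset.card_pos_iff_exists_mem.mpr
      refine ⟨z, ?_⟩
      rw [Multiset.mem_filter]
      exact ⟨(mem_roots hEne).mpr h1, hz⟩
    have h3 : (({0} : Multiset ℂ).filter (fun x => ‖x‖ < 1)).card = 1 := by
      rw [Multiset.filter_eq_self.mpr, Multiset.card_singleton]
      intro a ha
      rw [Multiset.mem_singleton] at ha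
      rw [ha, norm_zero]
      exact one_pos
    omega
  have hE0 : Eis.emb (E.coeff 0) = Ec.eval 0 := by
    rw [hEc, ← coeff_zero_eq_eval_zero, coeff_map]
  have hEc0 : E.coeff 0 ≠ 0 := by
    intro h1
    have h2 := hEz 0 (by simp)
    rw [← hE0, h1, map_zero] at h2
    exact h2 rfl
  refine ⟨v, ‖Eis.emb (E.coeff 0)‖, ?_, Eis.one_le hEc0, 1, E, ?_, rfl, ?_⟩
  · -- the bound
    rw [hE0]
    obtain ⟨ε, hε⟩ : ∃ ε : ℂ, ε = Eis.emb (v : Eis) := ⟨_, rfl⟩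
    rw [← hε] at hvn hVc
    have h1 := congrArg (eval 0) hVc
    simp only [eval_add, eval_mul, eval_sub, eval_one, eval_C, eval_X, zero_mul, mul_zero,
      sub_zero, one_mul] at h1
    have h2 := congrArg (fun p : ℂ[X] => (derivative p).eval 0) hVc
    simp only [derivative_add, derivative_mul, derivative_sub, derivative_one, derivative_C,
      derivative_X, eval_add, eval_mul, eval_sub, eval_one, eval_C, eval_X, eval_zero, zero_mul,
      mul_zero, sub_zero, one_mul, zero_add, add_zero, zero_sub, mul_one, eval_neg] at h2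
    have h3 : Ec.eval 0 * s.eval 0 = ε * (T * c * s.eval 0 ^ 2 +
        ((derivative r).eval 0 * s.eval 0 - r.eval 0 * (derivative s).eval 0)) := by
      linear_combination s.eval 0 * h2 + (T * s.eval 0 - (derivative s).eval 0) * h1
    have h4 : ‖Ec.eval 0‖ = ‖Ec.eval 0 * s.eval 0‖ := by rw [norm_mul, hs1, mul_one]
    rw [h4, h3, norm_mul, hvn, one_mul]
    calc ‖T * c * s.eval 0 ^ 2 +
        ((derivative r).eval 0 * s.eval 0 - r.eval 0 * (derivative s).eval 0)‖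
        ≤ ‖T * c * s.eval 0 ^ 2‖ +
          ‖(derivative r).eval 0 * s.eval 0 - r.eval 0 * (derivative s).eval 0‖ :=
          norm_add_le _ _
      _ ≤ ‖c‖ * θ + 1 := by
          apply add_le_add
          · rw [norm_mul, norm_mul, norm_pow, hs1, one_pow, mul_one, hD.nT, mul_comm]
          · have := hD.h1
            rwa [hs1, one_pow] at this
  · rw [hE, map_mul, toLaurent_X]
  · intro z hz
    exact hEc ▸ hEz z hz

/-- Row U_LA2. -/
theorem la2 (hPCZ : PCZS) (hSWZ : SwzS) (hRA2 : Ra2S) (hAUV : AuvS) : La2S := by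
  intro θ q f s r T c hθ hD hc
  have hθ0 : 0 < θ := by linarith
  have h1 : 20 / θ ≤ 1 / 10 := by
    rw [div_le_iff₀ hθ0]; linarith
  have hc' : ‖c‖ ≤ 11 / 10 := by linarith
  exact ⟨fun hfu => la22 hPCZ hSWZ hRA2 hAUV hθ hD hfu hc', fun hfu => la21 hPCZ hD hfu⟩

end Pool.Agent.B5.H88
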