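import Pool.Agent.Lib.MP_b5021c_nt.IfaceE5
import Pool.Agent.Lib.MP_b5021c_nt.B.H91.A1r

/-!
# Board b5, stage 3, row E5_WB5: the window, load of type B
-/

namespace Pool.Agent.B5.H88

open Polynomial
open scoped LaurentPolynomial
open Pool.Agent.MP_b5021c_nt (Eis nz)

/-- Class `P` is invariant under shifts. -/
theorem classP_shift {θ : ℝ} {V : RO Eis} (n : ℤ) (h : ClassP θ V) :
    ClassP θ (LaurentPolynomial.T n * V) := by
  obtain ⟨h1, m, p, hp, h2, h3⟩ := h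
  refine ⟨h1, n + m, p, ?_, h2, h3⟩
  rw [hp, ← mul_assoc, ← LaurentPolynomial.T_add]

theorem norm_evR_shift (z : Circle) (n : ℤ) (p : Eis[X]) :
    ‖evR z (LaurentPolynomial.T n * toLaurent p)‖ = ‖(p.map Eis.emb).eval (z : ℂ)‖ := by
  rw [map_mul, norm_mul, H91.norm_evR_T, one_mul, H91.evR_toLaurent]
  rfl

theorem wb5 : Nw5S → Lb5S → Ks5S → Wb5S := by
  intro hNW hLB hKS θ Q F e x y n q f s r T c hθ hW
  obtain ⟨hQ, hF, hD, hcT, hxy, hc72, hx7⟩ := hW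
  have hθ0 : 0 < θ := by linarith
  have hC2 : ‖c‖ ^ 2 = x ^ 2 + y ^ 2 := by
    have h1 : ‖c * (starRingEnd ℂ) T‖ ^ 2 = θ ^ 2 * (x ^ 2 + y ^ 2) := by
      rw [hcT, norm_mul, mul_pow, Complex.norm_real, Real.norm_eq_abs, sq_abs]
      congr 1
      rw [← Complex.normSq_eq_norm_sq, Complex.normSq_apply]
      simp
      ring
    rw [norm_mul, RCLike.norm_conj, hD.nT, mul_pow] at h1
    have h2 : θ ^ 2 ≠ 0 := by positivity
    have h3 : θ ^ 2 * ‖c‖ ^ 2 = θ ^ 2 * (x ^ 2 + y ^ 2) := by rw [← h1]; ring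
    exact mul_left_cancel₀ h2 h3
  obtain ⟨h62, h11, -⟩ := hNW θ ‖c‖ x y hθ (norm_nonneg c) hC2 hxy hc72 hx7
  have hQF : Q + (e : RO Eis) * F = LaurentPolynomial.T n * toLaurent (q + X * f) := by
    rw [hQ, hF, map_add, mul_add]
  have hnz : nz (q.map (Coef.emb : Eis →+* ℂ)) = 1 := by
    unfold Pool.Agent.MP_b5021c_nt.nz
    have h1 : (q.map (Coef.emb : Eis →+* ℂ)).roots.filter (fun x => ‖x‖ < 1) = {T⁻¹} := hD.root
    rw [h1, Multiset.card_singleton]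
  have hs1 : ‖s.eval 0‖ = 1 := by
    have h1 : Eis.emb (q.coeff 0) = s.eval 0 := by
      have h2 := congrArg (eval 0) hD.qs
      rw [← coeff_zero_eq_eval_zero, coeff_map] at h2
      rw [h2]; simp
    rw [← h1]; exact hD.q0
  have hf0 : ‖Eis.emb (f.coeff 0)‖ ≤ ‖c‖ + 1 := by
    have h1 : Eis.emb (f.coeff 0) = c * s.eval 0 + r.eval 0 := by
      have h2 := congrArg (eval 0) hD.fs
      rw [← coeff_zero_eq_eval_zero, coeff_map] at h2
      rw [h2]; simp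
    rw [h1]
    refine (norm_add_le _ _).trans ?_
    have h3 := hD.h0
    rw [norm_mul, hs1, mul_one]
    rw [hs1] at h3
    linarith
  refine ⟨h62, h11, ?_, ?_, ?_⟩
  · obtain ⟨θ', h1, h2, -, h3⟩ := (hLB θ q f s r T c x y hθ hD hcT).1 (by linarith)
    refine ⟨θ', h1, ?_, ?_⟩
    · have h4 : 2 / θ ≤ 2 / 1000000 := div_le_div_of_nonneg_left (by norm_num) (by norm_num) hθ
      linarith
    · rw [hQF]; exact classP_shift n h3
  · exact ⟨n, q, f, hQ, hF, hD.q0, hnz, hf0.trans (by linarith)⟩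
  · intro hz
    have h1 : ∀ z : ℂ, ‖z‖ = 1 →
        ‖((q + X * f).map Eis.emb).eval z‖ ≤ ‖(q.map Eis.emb).eval z‖ := by
      intro z hz1
      have h2 := hz ⟨z, mem_sphere_zero_iff_norm.mpr hz1⟩
      rw [hQF, hQ, norm_evR_shift, norm_evR_shift] at h2
      exact h2
    have h2 := (hKS θ q f s r T c hθ hD h1).2 (by linarith)
    exact ⟨n, q, f, hQ, hF, hD.q0, hnz, (Eis.norm_emb_unit h2).le⟩

end Pool.Agent.B5.H88
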